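import Mathlib
import Pool.Agent.H35.Wpl

set_option autoImplicit false

namespace Pool.Agent.Results.MP_69b7b0_lc.Linear

open Pool.Agent.H35.Wpl Filter Topology

theorem gen (f : ℕ → ℝ) (hf : Tendsto (fun n : ℕ => f n / n) atTop (𝓝 0)) :
    ¬ ∃ (C : ℝ) (n₀ : ℕ), ∀ n : ℕ, n₀ ≤ n → ∀ T₀ : T, IsBST n T₀ → ∀ σ : List ℕ,
      (∀ x ∈ σ, 1 ≤ x ∧ x ≤ n) → (cost T₀ σ : ℝ) ≤ C * f n * (OPT T₀ σ : ℝ) + C * n := by
  rintro ⟨C, n₀, h⟩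
  have t1 : Tendsto (fun n : ℕ => |C| * (9 * |f n / n| + 2 * (1 / (n : ℝ)))) atTop
      (𝓝 (|C| * (9 * |(0 : ℝ)| + 2 * 0))) :=
    ((hf.abs.const_mul 9).add (tendsto_one_div_atTop_nhds_zero_nat.const_mul 2)).const_mul _
  have t2 := t1.eventually (gt_mem_nhds (show |C| * (9 * |(0 : ℝ)| + 2 * 0) < 1 by simp))
  obtain ⟨N, hN⟩ := eventually_atTop.1 t2
  set q := N + n₀ with hq
  have a := hN (2 * (q + 1)) (by omega)
  have b := h (2 * (q + 1)) (by omega) (Z 1 (q + 1)) (Z_keys _ _) (rep 1 (q + 1) 1) (fun x hx => by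
    have := rep_mem _ _ _ x hx
    omega)
  rw [cost, cost_rep 1 (q + 1) 1 0 _ (fun _ _ => rfl)] at b
  have c : (OPT (Z 1 (q + 1)) (rep 1 (q + 1) 1) : ℝ) ≤ 9 * (q + 1) := by
    have := opt_rep 1 q 1
    have : OPT (Z 1 (q + 1)) (rep 1 (q + 1) 1) ≤ 9 * (q + 1) := by omega
    exact_mod_cast this
  have c0 : (0 : ℝ) ≤ OPT (Z 1 (q + 1)) (rep 1 (q + 1) 1) := Nat.cast_nonneg _
  generalize (OPT (Z 1 (q + 1)) (rep 1 (q + 1) 1) : ℝ) = o at b c c0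
  generalize f (2 * (q + 1)) = y at a b
  push_cast at a b
  have p : (0 : ℝ) < (q : ℝ) + 1 := by positivity
  generalize (q : ℝ) + 1 = u at a b c p
  rw [abs_div, abs_of_pos (show 0 < 2 * u by positivity)] at a
  have a' : |C| * (9 * |y| + 2) < 2 * u := by
    have : |C| * (9 * (|y| / (2 * u)) + 2 * (1 / (2 * u))) = |C| * (9 * |y| + 2) / (2 * u) := by
      field_simp
    rw [this, div_lt_one (by positivity)] at a
    exact a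
  have e1 : C * y * o ≤ |C| * |y| * (9 * u) := by
    refine (mul_le_mul_of_nonneg_right (le_abs_self _) c0).trans ?_
    rw [abs_mul]
    exact mul_le_mul_of_nonneg_left c (by positivity)
  have e2 : C * (2 * u) ≤ |C| * (2 * u) := mul_le_mul_of_nonneg_right (le_abs_self _) (by positivity)
  nlinarith

theorem result :
    (¬ ∃ (C : ℝ) (n₀ : ℕ), ∀ n : ℕ, n₀ ≤ n → ∀ T₀ : T, IsBST n T₀ → ∀ σ : List ℕ,
      (∀ x ∈ σ, 1 ≤ x ∧ x ≤ n) →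
        (cost T₀ σ : ℝ) ≤ C * Real.log n * (OPT T₀ σ : ℝ) + C * n) ∧
    ∀ f : ℕ → ℝ, Tendsto (fun n : ℕ => f n / n) atTop (𝓝 0) →
      ¬ ∃ (C : ℝ) (n₀ : ℕ), ∀ n : ℕ, n₀ ≤ n → ∀ T₀ : T, IsBST n T₀ → ∀ σ : List ℕ,
        (∀ x ∈ σ, 1 ≤ x ∧ x ≤ n) → (cost T₀ σ : ℝ) ≤ C * f n * (OPT T₀ σ : ℝ) + C * n := by
  refine ⟨gen (fun n => Real.log n) ?_, gen⟩
  exact (Real.isLittleO_log_id_atTop.tendsto_div_nhds_zero).comp tendsto_natCast_atTop_atTop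

end Pool.Agent.Results.MP_69b7b0_lc.Linear
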